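import Mathlib

set_option autoImplicit false

namespace Pool.Agent.Helper96.Sol

open Subgroup

/-- the set on which the free group `P` is free -/
abbrev Gen : Type := Equiv.Perm (Fin 5)

abbrev P : Type := FreeGroup Gen

/-- the free group of finite rank with one more generator -/
abbrev F : Type := FreeGroup (Option Gen)

lemma P_not_solvable : ¬ Group.IsSolvable P := by
  intro h
  refine Equiv.Perm.not_isSolvable_fin_5 ?_
  exact Group.isSolvable_of_surjective (f := (FreeGroup.lift (fun g : Gen => g) : P →* Gen))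
    (fun g => ⟨FreeGroup.of g, by simp⟩)

lemma derivedSeries_ne_bot (j : ℕ) : derivedSeries P j ≠ ⊥ := by
  intro h
  exact P_not_solvable ⟨⟨j, h⟩⟩

lemma exists_deep (j : ℕ) : ∃ a ∈ derivedSeries P j,
    ∀ m : ℕ, 0 < m → a ^ m ∉ derivedSeries P (j + 1) := by
  set H : Subgroup P := derivedSeries P j with hH
  have hne : Nontrivial H := by
    rw [Subgroup.nontrivial_iff_ne_bot]
    exact derivedSeries_ne_bot j
  let b := IsFreeGroup.basis H
  have hι : Nonempty (IsFreeGroup.Generators H) := by
    by_contra hcon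
    rw [not_nonempty_iff] at hcon
    obtain ⟨x, hx⟩ := exists_ne (1 : H)
    apply hx
    apply b.repr.injective
    exact Subsingleton.elim _ _
  obtain ⟨i⟩ := hι
  let χ : H →* Multiplicative ℤ := b.lift (fun _ => Multiplicative.ofAdd 1)
  have hχ : χ (b i) = Multiplicative.ofAdd 1 := by
    simp [χ]
  refine ⟨b i, (b i).2, ?_⟩
  intro m hm hmem
  rw [derivedSeries_succ, ← hH] at hmem
  have h1 : ((b i) ^ m : H) ∈ commutator H := by
    have h2 := Subgroup.map_subtype_commutator H
    rw [← h2, Subgroup.mem_map] at hmem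
    obtain ⟨y, hy, hy2⟩ := hmem
    have : y = (b i) ^ m := by
      apply Subtype.ext
      simpa using hy2
    rwa [← this]
  have h3 : commutator H ≤ χ.ker := Abelianization.commutator_subset_ker χ
  have h4 := h3 h1
  rw [MonoidHom.mem_ker, map_pow, hχ] at h4
  have h5 : (Multiplicative.ofAdd (m : ℤ)) = 1 := by
    rw [← h4, ← ofAdd_nsmul]
    simp
  have h6 : (m : ℤ) = 0 := by simpa using h5
  omega

/-- the chosen element of the `j`-th term of the derived series -/
noncomputable def a (j : ℕ) : P := (exists_deep j).choose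

lemma a_mem (j : ℕ) : a j ∈ derivedSeries P j := (exists_deep j).choose_spec.1

lemma a_pow (j m : ℕ) (hm : 0 < m) : (a j) ^ m ∉ derivedSeries P (j + 1) :=
  (exists_deep j).choose_spec.2 m hm

/-- inclusion of `P` in `F` -/
def inc : P →* F := FreeGroup.map some

/-- retraction of `F` on `P` -/
def ret : F →* P := FreeGroup.lift (fun o => o.elim 1 FreeGroup.of)

lemma ret_inc (p : P) : ret (inc p) = p := by
  have : ret.comp inc = MonoidHom.id P := by
    ext g
    simp [ret, inc]
  exact DFunLike.congr_fun this p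

/-- the additional generator -/
def z : F := FreeGroup.of none

lemma ret_z : ret z = 1 := by simp [ret, z]

/-- copy of `a j` in `F` -/
noncomputable def a' (j : ℕ) : F := inc (a j)

lemma a'_mem (j : ℕ) : a' j ∈ derivedSeries F j :=
  map_derivedSeries_le_derivedSeries inc j (Subgroup.mem_map_of_mem inc (a_mem j))

/-- approximations: `A c m j = c j [a_j, c (j+1) [a_(j+1), ... ]]` to depth `m` -/
noncomputable def A (c : ℕ → F) : ℕ → ℕ → F
  | 0, j => c j
  | m + 1, j => c j * (a' j * A c m (j + 1) * (a' j)⁻¹ * (A c m (j + 1))⁻¹)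

/-- the product of all the derived quotients -/
abbrev Q : Type := (i : ℕ) → F ⧸ derivedSeries F i

lemma quot_comm {i j : ℕ} (h : i ≤ j) (x : F) :
    ((a' j * x * (a' j)⁻¹ * x⁻¹ : F) : F ⧸ derivedSeries F i) = 1 := by
  have h1 : ((a' j : F) : F ⧸ derivedSeries F i) = 1 := by
    rw [QuotientGroup.eq_one_iff]
    exact derivedSeries_antitone F h (a'_mem j)
  simp [h1]

lemma A_stable (c : ℕ → F) (i : ℕ) : ∀ (m j : ℕ), i ≤ j + m →
    ((A c (m + 1) j : F) : F ⧸ derivedSeries F i) = (A c m j : F) := by
  intro m
  induction m with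
  | zero =>
    intro j hj
    have := quot_comm (i := i) (j := j) (by omega) (A c 0 (j + 1))
    simp only [A] at this ⊢
    rw [QuotientGroup.mk_mul, this, mul_one]
  | succ m ih =>
    intro j hj
    have h := ih (j + 1) (by omega)
    have e1 : A c (m + 1 + 1) j =
      c j * (a' j * A c (m + 1) (j + 1) * (a' j)⁻¹ * (A c (m + 1) (j + 1))⁻¹) := rfl
    have e2 : A c (m + 1) j =
      c j * (a' j * A c m (j + 1) * (a' j)⁻¹ * (A c m (j + 1))⁻¹) := rfl
    rw [e1, e2]
    simp only [QuotientGroup.mk_mul, QuotientGroup.mk_inv]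
    rw [h]

/-- the elements that are adjoined -/
noncomputable def g (c : ℕ → F) (j : ℕ) : Q := fun i => ((A c i j : F) : F ⧸ derivedSeries F i)

/-- diagonal embedding -/
def diag : F →* Q := MonoidHom.pi (fun i => QuotientGroup.mk' (derivedSeries F i))

lemma diag_apply (x : F) (i : ℕ) : diag x i = (x : F ⧸ derivedSeries F i) := rfl

lemma g_rec (c : ℕ → F) (j : ℕ) :
    g c j = diag (c j) *
      (diag (a' j) * g c (j + 1) * (diag (a' j))⁻¹ * (g c (j + 1))⁻¹) := by
  funext i
  have h := A_stable c i i j (by omega)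
  simp only [Pi.mul_apply, Pi.inv_apply, diag_apply, g]
  rw [← h, A]
  simp only [QuotientGroup.mk_mul, QuotientGroup.mk_inv]

/-- generators of the group -/
def gens : Set Q := Set.range diag ∪ {x | ∃ c j, x = g c j}

/-- the group -/
def Gam : Subgroup Q := Subgroup.closure gens

lemma diag_mem (x : F) : diag x ∈ Gam := Subgroup.subset_closure (Or.inl ⟨x, rfl⟩)

lemma g_mem (c : ℕ → F) (j : ℕ) : g c j ∈ Gam := Subgroup.subset_closure (Or.inr ⟨c, j, rfl⟩)

/-- the homomorphism of the free group in the group -/
def psi : F →* Gam := diag.codRestrict Gam diag_mem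

lemma psi_val (x : F) : (psi x : Q) = diag x := rfl

/-- element of `Gam` -/
noncomputable def gG (c : ℕ → F) (j : ℕ) : Gam := ⟨g c j, g_mem c j⟩

lemma gG_rec (c : ℕ → F) (j : ℕ) :
    gG c j = psi (c j) *
      (psi (a' j) * gG c (j + 1) * (psi (a' j))⁻¹ * (gG c (j + 1))⁻¹) := by
  apply Subtype.ext
  exact g_rec c j

lemma induction_Gam (S : Subgroup Gam) (h1 : ∀ x, psi x ∈ S) (h2 : ∀ c j, gG c j ∈ S) :
    S = ⊤ := by
  have h3 : Subgroup.closure gens ≤ S.map Gam.subtype := by
    rw [Subgroup.closure_le]
    rintro x (⟨y, rfl⟩ | ⟨c, j, rfl⟩)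
    · exact ⟨psi y, h1 y, rfl⟩
    · exact ⟨gG c j, h2 c j, rfl⟩
  rw [eq_top_iff]
  intro x _
  obtain ⟨y, hy, hy2⟩ := h3 x.2
  have : y = x := Subtype.ext hy2
  rwa [← this]

/-- `F D^i(Gam)` -/
def FD (i : ℕ) : Subgroup Gam := psi.range ⊔ derivedSeries Gam i

lemma mem_FD (i : ℕ) (x : Gam) : x ∈ FD i ↔ ∃ f : F, ∃ d ∈ derivedSeries Gam i, psi f * d = x := by
  rw [FD, Subgroup.mem_sup_of_normal_right]
  constructor
  · rintro ⟨y, ⟨f, rfl⟩, d, hd, rfl⟩
    exact ⟨f, d, hd, rfl⟩
  · rintro ⟨f, d, hd, rfl⟩
    exact ⟨psi f, ⟨f, rfl⟩, d, hd, rfl⟩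

lemma psi_mem_FD (i : ℕ) (x : F) : psi x ∈ FD i := Subgroup.mem_sup_left ⟨x, rfl⟩

lemma psi_deep {i j : ℕ} (h : i ≤ j) : psi (a' j) ∈ derivedSeries Gam i :=
  map_derivedSeries_le_derivedSeries psi i
    (Subgroup.mem_map_of_mem psi (derivedSeries_antitone F h (a'_mem j)))

lemma FD_eq_top (i : ℕ) : FD i = ⊤ := by
  induction i with
  | zero => rw [FD, derivedSeries_zero, sup_top_eq]
  | succ i ih =>
    apply induction_Gam
    · exact psi_mem_FD _
    · intro c
      -- large `j`
      have hlarge : ∀ j, i ≤ j → gG c j ∈ FD (i + 1) := by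
        intro j hj
        have hmem : gG c (j + 1) ∈ FD i := by rw [ih]; trivial
        rw [mem_FD] at hmem
        obtain ⟨f, d, hd, hfd⟩ := hmem
        rw [gG_rec, ← hfd]
        have hcomm : psi (a' j) * d * (psi (a' j))⁻¹ * d⁻¹ ∈ derivedSeries Gam (i + 1) := by
          rw [derivedSeries_succ]
          exact Subgroup.commutator_mem_commutator (psi_deep hj) hd
        have hconj : psi f * (psi (a' j) * d * (psi (a' j))⁻¹ * d⁻¹) * (psi f)⁻¹ ∈
            derivedSeries Gam (i + 1) :=
          (derivedSeries_normal Gam (i + 1)).conj_mem _ hcomm _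
        rw [mem_FD]
        refine ⟨c j * (a' j * f * (a' j)⁻¹ * f⁻¹), _, hconj, ?_⟩
        simp only [map_mul, map_inv]
        group
      -- descent
      have hdesc : ∀ n j, i ≤ j + n → gG c j ∈ FD (i + 1) := by
        intro n
        induction n with
        | zero => intro j hj; exact hlarge j hj
        | succ n ihn =>
          intro j hj
          have h := ihn (j + 1) (by omega)
          rw [gG_rec]
          exact mul_mem (psi_mem_FD _ _) (mul_mem (mul_mem (mul_mem (psi_mem_FD _ _) h)
            (inv_mem (psi_mem_FD _ _))) (inv_mem h))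
      intro j
      exact hdesc i j (by omega)

/-! ### the quotients -/

lemma comap_eq (i : ℕ) : (derivedSeries Gam i).comap psi = derivedSeries F i := by
  apply le_antisymm
  · intro x hx
    rw [Subgroup.mem_comap] at hx
    -- project on the coordinate `i`
    let pr : Gam →* F ⧸ derivedSeries F i := (Pi.evalMonoidHom _ i).comp Gam.subtype
    have h1 : pr (psi x) ∈ derivedSeries (F ⧸ derivedSeries F i) i :=
      map_derivedSeries_le_derivedSeries pr i (Subgroup.mem_map_of_mem pr hx)
    have h2 : derivedSeries (F ⧸ derivedSeries F i) i = ⊥ := by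
      rw [← map_derivedSeries_eq (QuotientGroup.mk'_surjective (derivedSeries F i)) i]
      rw [Subgroup.map_eq_bot_iff, QuotientGroup.ker_mk']
    rw [h2, Subgroup.mem_bot] at h1
    have h3 : ((x : F) : F ⧸ derivedSeries F i) = 1 := h1
    rwa [QuotientGroup.eq_one_iff] at h3
  · intro x hx
    exact map_derivedSeries_le_derivedSeries psi i (Subgroup.mem_map_of_mem psi hx)

instance quot_solvable (i : ℕ) : Group.IsSolvable (F ⧸ derivedSeries F i) := by
  refine ⟨⟨i, ?_⟩⟩
  rw [← map_derivedSeries_eq (QuotientGroup.mk'_surjective (derivedSeries F i)) i]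
  rw [Subgroup.map_eq_bot_iff, QuotientGroup.ker_mk']

lemma resid (x : Gam) (hx : x ≠ 1) :
    ∃ (S : Type) (_ : Group S) (_ : Group.IsSolvable S) (f : Gam →* S), f x ≠ 1 := by
  have h : ∃ i, (x : Q) i ≠ 1 := by
    by_contra hcon
    push Not at hcon
    apply hx
    apply Subtype.ext
    funext i
    exact hcon i
  obtain ⟨i, hi⟩ := h
  exact ⟨F ⧸ derivedSeries F i, inferInstance, inferInstance,
    (Pi.evalMonoidHom _ i).comp Gam.subtype, hi⟩

/-! ### `Gam` is uncountable -/

section affine

variable (k : ℕ)

abbrev S : Type := P ⧸ derivedSeries P k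

abbrev R : Type := MonoidAlgebra ℤ (S k)

/-- the action of the group on its group ring -/
noncomputable def act : S k →* MulAut (Multiplicative (R k)) where
  toFun s := (MulAutMultiplicative (R k)).symm
    (AddAut.mulLeft ((Units.map (MonoidAlgebra.of ℤ (S k))) (toUnits s)))
  map_one' := by simp
  map_mul' := by
    intro x y
    simp

lemma act_apply (s : S k) (v : R k) :
    act k s (Multiplicative.ofAdd v) = Multiplicative.ofAdd (MonoidAlgebra.of ℤ (S k) s * v) := rfl

abbrev Aff : Type := Multiplicative (R k) ⋊[act k] (S k)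

/-- the affine representation of `F` -/
noncomputable def theta : F →* Aff k :=
  FreeGroup.lift (fun o => o.elim (SemidirectProduct.inl (Multiplicative.ofAdd 1))
    (fun g => SemidirectProduct.inr ((FreeGroup.of g : P) : S k)))

lemma theta_inc (p : P) : theta k (inc p) = SemidirectProduct.inr (p : S k) := by
  have : (theta k).comp inc = (SemidirectProduct.inr).comp (QuotientGroup.mk' (derivedSeries P k)) := by
    ext g
    · simp [theta, inc]
    · simp [theta, inc]
  exact DFunLike.congr_fun this p

lemma theta_z : theta k z = SemidirectProduct.inl (Multiplicative.ofAdd 1) := by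
  simp [theta, z]

lemma right_theta (x : F) : (theta k x).right = ((ret x : P) : S k) := by
  have : (SemidirectProduct.rightHom).comp (theta k) =
      (QuotientGroup.mk' (derivedSeries P k)).comp ret := by
    ext o
    cases o with
    | none => simp [theta, ret]
    | some g => simp [theta, ret]
  exact DFunLike.congr_fun this x

lemma theta_deep (x : F) (hx : x ∈ derivedSeries F (k + 1)) : theta k x = 1 := by
  have key : derivedSeries F (k + 1) ≤ (theta k).ker := by
    rw [derivedSeries_succ, Subgroup.commutator_le]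
    have h1 : ∀ y ∈ derivedSeries F k, theta k y = SemidirectProduct.inl (theta k y).left := by
      intro y hy
      ext
      · simp
      · rw [right_theta, SemidirectProduct.right_inl, QuotientGroup.eq_one_iff]
        exact map_derivedSeries_le_derivedSeries ret k (Subgroup.mem_map_of_mem ret hy)
    intro y hy w hw
    rw [MonoidHom.mem_ker, map_commutatorElement, h1 y hy, h1 w hw, ← map_commutatorElement,
      commutatorElement_eq_one_iff_commute.mpr (Commute.all _ _), map_one]
  exact key hx

/-- the translation parts -/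
noncomputable def gamma (e : ℕ → ℤ) : ℕ → ℕ → R k
  | 0, j => (e j : R k)
  | m + 1, j => (e j : R k) +
      (MonoidAlgebra.of ℤ (S k) (a j : S k) * gamma e m (j + 1) - gamma e m (j + 1))

lemma theta_A (e : ℕ → ℤ) : ∀ m j, theta k (A (fun i => z ^ (e i)) m j) =
    SemidirectProduct.inl (Multiplicative.ofAdd (gamma k e m j)) := by
  have hz : ∀ i : ℤ, theta k (z ^ i) =
      SemidirectProduct.inl (Multiplicative.ofAdd ((i : ℤ) : R k)) := by
    intro i
    rw [map_zpow, theta_z, ← map_zpow, ← ofAdd_zsmul]
    simp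
  intro m
  induction m with
  | zero => intro j; exact hz _
  | succ m ih =>
    intro j
    have e1 : A (fun i => z ^ (e i)) (m + 1) j =
      z ^ (e j) * (a' j * A (fun i => z ^ (e i)) m (j + 1) * (a' j)⁻¹ *
        (A (fun i => z ^ (e i)) m (j + 1))⁻¹) := rfl
    rw [e1, map_mul, hz, map_mul, map_mul, map_mul, map_inv, map_inv, ih, a', theta_inc, gamma,
      ofAdd_add, map_mul]
    congr 1
    rw [← map_inv SemidirectProduct.inr, ← SemidirectProduct.inl_aut, act_apply, ← map_inv, ← map_mul,
      ← ofAdd_neg, ← ofAdd_add, sub_eq_add_neg]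

lemma fixed_eq_zero (s : S k) (hs : ∀ m : ℕ, 0 < m → s ^ m ≠ 1) (v : R k)
    (hv : MonoidAlgebra.of ℤ (S k) s * v = v) : v = 0 := by
  by_contra hne
  obtain ⟨u, hu⟩ : ∃ u, v.coeff u ≠ 0 := by
    by_contra hcon
    push Not at hcon
    exact hne (by ext u; simpa using hcon u)
  have h1 : ∀ w, v.coeff (s * w) = v.coeff w := by
    intro w
    conv_lhs => rw [← hv]
    rw [MonoidAlgebra.of_apply, MonoidAlgebra.coeff_single_mul_mul, one_mul]
  have h2 : ∀ m : ℕ, v.coeff (s ^ m * u) = v.coeff u := by
    intro m
    induction m with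
    | zero => simp
    | succ m ih => rw [pow_succ', mul_assoc, h1, ih]
  have h3 : Function.Injective (fun m : ℕ => s ^ m * u) := by
    have h4 : ∀ m n : ℕ, m < n → s ^ m * u ≠ s ^ n * u := by
      intro m n hmn heq
      have h5 : s ^ m = s ^ n := mul_right_cancel heq
      apply hs (n - m) (by omega)
      have h6 : s ^ n = s ^ m * s ^ (n - m) := by rw [← pow_add]; congr 1; omega
      rw [h6] at h5
      exact left_eq_mul.mp h5
    intro m n hmn
    rcases lt_trichotomy m n with h | h | h
    · exact absurd hmn (h4 m n h)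
    · exact h
    · exact absurd hmn.symm (h4 n m h)
  have h7 : Set.Finite (Set.range (fun m : ℕ => s ^ m * u)) := by
    refine (Finset.finite_toSet v.coeff.support).subset ?_
    rintro _ ⟨m, rfl⟩
    simp only [Finset.mem_coe, Finsupp.mem_support_iff]
    rw [h2 m]
    exact hu
  exact Set.infinite_range_of_injective h3 h7

lemma gamma_ne (e e' : ℕ → ℤ) (hk : e k ≠ e' k) (hlt : ∀ j < k, e j = e' j) :
    ∀ n m j, j + n = k → m + j = k + 1 → gamma k e m j ≠ gamma k e' m j := by
  intro n
  induction n with
  | zero =>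
    intro m j hj hm
    obtain rfl : j = k := by omega
    obtain rfl : m = 1 := by omega
    have h1 : ((a j : P) : S j) = 1 := by
      rw [QuotientGroup.eq_one_iff]; exact a_mem j
    intro h
    simp only [gamma, h1, map_one, one_mul, sub_self, add_zero] at h
    apply hk
    have h8 := congrArg (fun r : R j => r.coeff 1) h
    simpa [MonoidAlgebra.intCast_def] using h8
  | succ n ih =>
    intro m j hj hm
    obtain ⟨m, rfl⟩ : ∃ m', m = m' + 1 := ⟨m - 1, by omega⟩
    have h := ih m (j + 1) (by omega) (by omega)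
    intro heq
    apply h
    have e1 : e j = e' j := hlt j (by omega)
    rw [gamma, gamma, e1] at heq
    have heq' := add_left_cancel heq
    rw [← sub_eq_zero] 
    apply fixed_eq_zero k (a j : S k)
    · intro r hr hcon
      rw [← QuotientGroup.mk_pow, QuotientGroup.eq_one_iff] at hcon
      exact a_pow j r hr (derivedSeries_antitone P (by omega) hcon)
    · rw [mul_sub, sub_eq_sub_iff_sub_eq_sub]
      exact heq'

end affine

lemma g_injective : Function.Injective (fun e : ℕ → ℤ => gG (fun i => z ^ (e i)) 0) := by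
  intro e e' h
  by_contra hne
  have hex : ∃ k, e k ≠ e' k := by
    by_contra hcon
    push Not at hcon
    exact hne (funext hcon)
  classical
  let k := Nat.find hex
  have hk : e k ≠ e' k := Nat.find_spec hex
  have hlt : ∀ j < k, e j = e' j := fun j hj => by
    by_contra hcon
    exact Nat.find_min hex hj hcon
  have h1 : g (fun i => z ^ (e i)) 0 = g (fun i => z ^ (e' i)) 0 := congrArg Subtype.val h
  have h2 := congrFun h1 (k + 1)
  rw [g, g, QuotientGroup.eq] at h2
  have h3 := theta_deep k _ h2
  rw [map_mul, map_inv, inv_mul_eq_one, theta_A, theta_A] at h3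
  have h4 := SemidirectProduct.inl_injective h3
  exact gamma_ne k e e' hk hlt k (k + 1) 0 (by omega) (by omega) (Multiplicative.ofAdd.injective h4)

lemma Gam_uncountable : Uncountable Gam := by
  have : Uncountable (ℕ → ℤ) := by
    rw [← Cardinal.aleph0_lt_mk_iff]
    simpa using Cardinal.aleph0_lt_continuum
  exact g_injective.uncountable

lemma Gam_not_free : ¬ IsFreeGroup Gam := by
  intro hfree
  let b := IsFreeGroup.basis Gam
  -- the abelianization is countable
  have h1 : Function.Surjective ((Abelianization.of).comp psi : F →* Abelianization Gam) := by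
    intro y
    obtain ⟨x, rfl⟩ : ∃ x, Abelianization.of x = y := QuotientGroup.mk_surjective y
    have hx : x ∈ FD 1 := by rw [FD_eq_top]; trivial
    rw [mem_FD] at hx
    obtain ⟨f, d, hd, rfl⟩ := hx
    refine ⟨f, ?_⟩
    have hd' : d ∈ commutator Gam := hd
    have : Abelianization.of d = 1 := by
      rw [← MonoidHom.mem_ker, Abelianization.ker_of]; exact hd'
    rw [map_mul, this, mul_one]; rfl
  have h2 : Countable (Abelianization Gam) := h1.countable
  have h3 : Function.Injective (fun i => Abelianization.of (b i)) := by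
    classical
    intro i j hij
    by_contra hne
    let χ : Gam →* Multiplicative ℤ := b.lift (fun l => if l = i then Multiplicative.ofAdd 1 else 1)
    have h4 : (Abelianization.lift χ) (Abelianization.of (b i)) =
      (Abelianization.lift χ) (Abelianization.of (b j)) := congrArg _ hij
    simp [χ, Ne.symm hne] at h4
  have h5 : Countable (IsFreeGroup.Generators Gam) := h3.countable
  have h6 : Countable Gam := b.repr.injective.countable
  exact (not_countable_iff.mpr Gam_uncountable) h6

/-! ### the result -/

theorem main :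
    ∃ (n : ℕ) (Γ : Type) (_ : Group Γ) (ψ : FreeGroup (Fin n) →* Γ),
      (∀ g : Γ, g ≠ 1 →
        ∃ (S : Type) (_ : Group S) (_ : Group.IsSolvable S) (f : Γ →* S), f g ≠ 1) ∧
      ¬ IsFreeGroup Γ ∧
      ∀ j : ℕ, 1 ≤ j →
        (derivedSeries Γ j).comap ψ = derivedSeries (FreeGroup (Fin n)) j ∧
        ∀ γ : Γ, ∃ x : FreeGroup (Fin n), (ψ x)⁻¹ * γ ∈ derivedSeries Γ j := by
  let e : FreeGroup (Fin (Fintype.card (Option Gen))) ≃* F :=
    FreeGroup.freeGroupCongr (Fintype.equivFin (Option Gen)).symm
  refine ⟨Fintype.card (Option Gen), Gam, inferInstance, psi.comp e.toMonoidHom, resid,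
    Gam_not_free, ?_⟩
  intro j _
  constructor
  · rw [← Subgroup.comap_comap, comap_eq]
    apply le_antisymm
    · intro x hx
      have h1 : e x ∈ derivedSeries F j := hx
      have h2 := map_derivedSeries_le_derivedSeries e.symm.toMonoidHom j
        (Subgroup.mem_map_of_mem e.symm.toMonoidHom h1)
      simpa using h2
    · intro x hx
      exact map_derivedSeries_le_derivedSeries e.toMonoidHom j
        (Subgroup.mem_map_of_mem e.toMonoidHom hx)
  · intro γ
    have hx : γ ∈ FD j := by rw [FD_eq_top]; trivial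
    rw [mem_FD] at hx
    obtain ⟨f, d, hd, rfl⟩ := hx
    refine ⟨e.symm f, ?_⟩
    simpa using hd

end Pool.Agent.Helper96.Sol
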